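import Mathlib
import Pool.Agent.Q92.AR.All
import Pool.Agent.Q92.AR.EvenL

/-!
# Orders of the zeta functions and Artin L-functions of an extension of number fields
-/

set_option autoImplicit false
set_option linter.unusedSectionVars false

namespace Pool.Agent.Q7.RA

open NumberField IsDedekindDomain Filter Topology Pool.Agent.H541R3.ART Pool.Agent.Q92.AR
open Pool.Agent.Q92.RT (induced)

/-- The order at `s₀` of the Dedekind zeta function of the number field `F` (of its meromorphic
continuation to `ℂ`). -/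
noncomputable def zetaOrder (F : Type) [Field F] [NumberField F] (s₀ : ℂ) : WithTop ℤ :=
  meromorphicOrderAt (cont (NumberField.dedekindZeta F)) s₀

/-- The order at `s₀` of the Artin L-function of the class function `χ` of the Galois group of `M/K`
(of its meromorphic continuation to `ℂ`). -/
noncomputable def artinOrder {K M : Type} [Field K] [NumberField K] [Field M] [NumberField M]
    [Algebra K M] (χ : (M ≃ₐ[K] M) → ℂ) (s₀ : ℂ) : WithTop ℤ :=
  meromorphicOrderAt (cont (artinL M χ)) s₀

section
variable {K M : Type} [Field K] [NumberField K] [Field M] [NumberField M] [Algebra K M]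

theorem fixer_inter (F : IntermediateField K M) : fixer K F M = F.fixingSubgroup := by
  ext g
  constructor
  · intro hg
    rw [IntermediateField.mem_fixingSubgroup_iff]
    intro x hx
    exact hg ⟨x, hx⟩
  · intro hg x
    rw [IntermediateField.mem_fixingSubgroup_iff] at hg
    exact hg x x.2

variable [IsGalois K M]

/-- the Artin L-functions of `M/K` -/
noncomputable def data (K M : Type) [Field K] [NumberField K] [Field M] [NumberField M]
    [Algebra K M] [IsGalois K M] {s₀ : ℂ} (h0 : 0 < s₀.re) (h1 : s₀ ≠ 1) :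
    ArtinData (M ≃ₐ[K] M) s₀ :=
  ArtinData.ofExtension (continued h0 h1)

theorem data_L {s₀ : ℂ} (h0 : 0 < s₀.re) (h1 : s₀ ≠ 1) (χ : (M ≃ₐ[K] M) → ℂ) :
    meromorphicOrderAt ((data K M h0 h1).L χ) s₀ = artinOrder χ s₀ := rfl

theorem data_field {s₀ : ℂ} (h0 : 0 < s₀.re) (h1 : s₀ ≠ 1) (F : IntermediateField K M) :
    meromorphicOrderAt ((data K M h0 h1).Lin F.fixingSubgroup 1) s₀ = zetaOrder F s₀ := by
  have h := lin_fixer (K := K) (F := F) (continued (K := K) (M := M) h0 h1) h0
  rw [fixer_inter F] at h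
  exact h

theorem data_bot {s₀ : ℂ} (h0 : 0 < s₀.re) (h1 : s₀ ≠ 1) :
    meromorphicOrderAt ((data K M h0 h1).Lin ⊥ 1) s₀ = zetaOrder M s₀ :=
  lin_bot _ h0

theorem data_top {s₀ : ℂ} (h0 : 0 < s₀.re) (h1 : s₀ ≠ 1) :
    meromorphicOrderAt ((data K M h0 h1).Lin ⊤ 1) s₀ = zetaOrder K s₀ :=
  lin_top _ h0

/-- the Dedekind zeta function has no pole except at `1` -/
theorem zetaOrder_nat (F : Type) [Field F] [NumberField F] {s₀ : ℂ} (h0 : 0 < s₀.re)
    (h1 : s₀ ≠ 1) : ∃ r : ℕ, zetaOrder F s₀ = (r : WithTop ℤ) := by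
  have h2 := data_top (K := F) (M := F) h0 h1
  have h3 := (data F F h0 h1).hecke ⊤ 1
  obtain ⟨k, hk⟩ : ∃ k : ℤ, meromorphicOrderAt ((data F F h0 h1).Lin ⊤ 1) s₀ =
      (k : WithTop ℤ) := by
    classical
    choose! m hm using fun χ (hχ : χ ∈ Irr (F ≃ₐ[F] F)) =>
      exists_mult hχ (⊤ : Subgroup (F ≃ₐ[F] F)) 1
    exact ⟨_, (data F F h0 h1).order_Lin ⊤ 1 m hm⟩
  rw [hk] at h3 h2
  obtain ⟨r, rfl⟩ := Int.eq_ofNat_of_zero_le (by exact_mod_cast h3 : (0 : ℤ) ≤ k)
  exact ⟨r, h2.symm⟩

theorem fixingSubgroup_inf (F L : IntermediateField K M) :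
    (F ⊓ L).fixingSubgroup = F.fixingSubgroup ⊔ L.fixingSubgroup := by
  have h := (IsGalois.intermediateFieldEquivSubgroup (F := K) (E := M)).map_inf F L
  exact congrArg OrderDual.ofDual h

theorem forall_subgroup (P : Subgroup (M ≃ₐ[K] M) → Prop) :
    (∀ H, P H) ↔ ∀ F : IntermediateField K M, P F.fixingSubgroup := by
  constructor
  · intro h F
    exact h _
  · intro h H
    have h1 := h (IntermediateField.fixedField H)
    rwa [IntermediateField.fixingSubgroup_fixedField] at h1

theorem exists_fixing (H : Subgroup (M ≃ₐ[K] M)) :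
    ∃ F : IntermediateField K M, F.fixingSubgroup = H :=
  ⟨IntermediateField.fixedField H, IntermediateField.fixingSubgroup_fixedField H⟩

theorem fixing_le_iff {F L : IntermediateField K M} :
    F.fixingSubgroup ≤ L.fixingSubgroup ↔ L ≤ F := by
  constructor
  · intro h
    have h1 := IntermediateField.fixedField_le h
    rwa [IsGalois.fixedField_fixingSubgroup, IsGalois.fixedField_fixingSubgroup] at h1
  · intro h
    exact IntermediateField.fixingSubgroup_antitone h

theorem finrank_eq_index (L : IntermediateField K M) :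
    Module.finrank K L = L.fixingSubgroup.index := by
  have h1 : Nat.card L.fixingSubgroup = Module.finrank L M :=
    IsGalois.card_fixingSubgroup_eq_finrank L
  have h2 : Nat.card (M ≃ₐ[K] M) = Module.finrank K M := IsGalois.card_aut_eq_finrank K M
  have h3 := Module.finrank_mul_finrank K L M
  have h4 := L.fixingSubgroup.index_mul_card
  rw [h1, h2, ← h3] at h4
  have h5 : 0 < Module.finrank L M := Module.finrank_pos
  exact (Nat.eq_of_mul_eq_mul_right h5 h4).symm

theorem half_pos' : (0 : ℝ) < (1 / 2 : ℂ).re := by norm_num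

theorem half_ne : (1 / 2 : ℂ) ≠ 1 := by norm_num

end

end Pool.Agent.Q7.RA
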