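import Mathlib
import Pool.Agent.Q7.TZ.Dich

/-!
# The orders of Artin L-functions at a double zero: definitions
-/

set_option autoImplicit false

namespace Pool.Agent.Q7.RA

open Pool.Agent.H541R3.ART Pool.Agent.Y788 Pool.Agent.Q7.TZ

/-- No quotient of `res G` has exactly one involution. -/
def NoSingleInvolution (G : Type) [Group G] [Finite G] : Prop :=
  ∀ (Q : Type) [Group Q] (f : res G →* Q), Function.Surjective f → ¬ ∃! t : Q, t ≠ 1 ∧ t * t = 1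

/-- `res G` has a normal subgroup `N` such that `res G / N` has exactly one involution and such that
`N` acts trivially and this involution acts as `-1` in all irreducible `χ` with `n χ ≠ 0`. -/
def CentralInvolution (G : Type) [Group G] [Finite G] (n : (G → ℂ) → ℤ) : Prop :=
  ∃ (N : Subgroup (res G)) (_ : N.Normal), (∃! t : res G ⧸ N, t ≠ 1 ∧ t * t = 1) ∧
    ∀ χ ∈ Irr G, n χ ≠ 0 → (∀ k ∈ N, χ k = χ 1) ∧ ∀ z : res G, z ∉ N → z * z ∈ N → χ z = -χ 1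

/-- One of the following holds: `n μ = 2` for a linear character `μ` with `μ ^ 2 = D`, and all other
`n χ` are `0`; or `n χ₀ = 1` for one `χ₀` which is symplectic for `D`, and all other `n χ` are `0`
except for at most two which are `-1`; or `n χ₀ = n (dual D χ₀) = 1` for one `χ₀ ≠ dual D χ₀`, and all
other `n χ` are `0` except for at most one which is `-1`. The characters with `n χ = -1` are
symplectic for `D`. -/
def AtMostThree {G : Type} [Group G] [Finite G] (n : (G → ℂ) → ℤ) (D : G →* ℂˣ) : Prop :=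
  (∃ μ : G →* ℂˣ, μ * μ = D ∧ n (fun g => ((μ g : ℂˣ) : ℂ)) = 2 ∧
      ∀ χ ∈ Irr G, χ ≠ (fun g => ((μ g : ℂˣ) : ℂ)) → n χ = 0) ∨
    (∃ χ₀ ∈ Irr G, Symplectic D χ₀ ∧ n χ₀ = 1 ∧ ∃ N : Finset (G → ℂ), N.card ≤ 2 ∧
        (∀ ψ ∈ N, ψ ∈ Irr G ∧ Symplectic D ψ ∧ n ψ = -1) ∧
        ∀ χ ∈ Irr G, χ ≠ χ₀ → χ ∉ N → n χ = 0) ∨
    (∃ χ₀ ∈ Irr G, dual D χ₀ ≠ χ₀ ∧ n χ₀ = 1 ∧ n (dual D χ₀) = 1 ∧
      ∃ N : Finset (G → ℂ), N.card ≤ 1 ∧ (∀ ψ ∈ N, ψ ∈ Irr G ∧ Symplectic D ψ ∧ n ψ = -1) ∧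
        ∀ χ ∈ Irr G, χ ≠ χ₀ → χ ≠ dual D χ₀ → χ ∉ N → n χ = 0)

/-- Every `t` with `D t = 1` for which `t ^ 2` is in the kernels of the irreducible `χ` with `n χ ≠ 0`
acts by one and the same sign in all of them. -/
def OneSign {G : Type} [Group G] [Finite G] (n : (G → ℂ) → ℤ) (D : G →* ℂˣ) : Prop :=
  ∀ t : G, D t = 1 → (∀ χ ∈ Irr G, n χ ≠ 0 → χ (t * t) = χ 1) →
    ∃ ε : ℂ, (ε = 1 ∨ ε = -1) ∧ ∀ χ ∈ Irr G, n χ ≠ 0 → χ t = ε * χ 1

end Pool.Agent.Q7.RA
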