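import Mathlib
import Pool.Agent.Q7.CV.Dbl
import Pool.Agent.Q7.RA.Fld
import Pool.Agent.Q7.RA.Shp

/-!
# Double zeros at the central point: definitions and the theorem for real L-functions
-/

set_option autoImplicit false
set_option linter.unusedSectionVars false

namespace Pool.Agent.Q7.RA

open Pool.Agent.H541R3.ART Pool.Agent.Q7.TZ Pool.Agent.Q7.DB Pool.Agent.Y788 Pool.Agent.Y788.V
  Pool.Agent.Q92.AR

section
variable {G : Type} [Group G] [Finite G]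

/-- `n μ = 2` for one linear character `μ` with `μ ^ 2 = 1`, and all other `n χ` are `0`. -/
def QuadraticDouble (n : (G → ℂ) → ℤ) : Prop :=
  ∃ μ : G →* ℂˣ, μ * μ = 1 ∧ n (fun g => ((μ g : ℂˣ) : ℂ)) = 2 ∧
    ∀ χ ∈ Irr G, χ ≠ (fun g => ((μ g : ℂˣ) : ℂ)) → n χ = 0

/-- `n χ₀ = 1` for one symplectic `χ₀`, and all other `n χ` are `0` except for at most two symplectic
`χ` with `n χ = -1`. -/
def SymplecticSimple (n : (G → ℂ) → ℤ) : Prop :=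
  ∃ χ₀ ∈ Irr G, Sy χ₀ ∧ n χ₀ = 1 ∧ ∃ N : Finset (G → ℂ), N.card ≤ 2 ∧
    (∀ ψ ∈ N, ψ ∈ Irr G ∧ Sy ψ ∧ n ψ = -1) ∧ ∀ χ ∈ Irr G, χ ≠ χ₀ → χ ∉ N → n χ = 0

/-- `n χ₀ = 1` and `n χ₁ = 1` for one `χ₀` with nonreal values and its conjugate `χ₁`, and all other
`n χ` are `0` except for at most one symplectic `χ` with `n χ = -1`. -/
def ConjugateSimple (n : (G → ℂ) → ℤ) : Prop :=
  ∃ χ₀ ∈ Irr G, (∃ g, χ₀ g⁻¹ ≠ χ₀ g) ∧ n χ₀ = 1 ∧ n (fun g => χ₀ g⁻¹) = 1 ∧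
    ∃ N : Finset (G → ℂ), N.card ≤ 1 ∧ (∀ ψ ∈ N, ψ ∈ Irr G ∧ Sy ψ ∧ n ψ = -1) ∧
      ∀ χ ∈ Irr G, χ ≠ χ₀ → χ ≠ (fun g => χ₀ g⁻¹) → χ ∉ N → n χ = 0

/-- `n χ₀ = 1` for one symplectic `χ₀` of degree two, and all other `n χ` are `0`. -/
def SymplecticDegreeTwo (n : (G → ℂ) → ℤ) : Prop :=
  ∃ χ₀ ∈ Irr G, Sy χ₀ ∧ χ₀ 1 = 2 ∧ n χ₀ = 1 ∧ ∀ χ ∈ Irr G, χ ≠ χ₀ → n χ = 0

/-- `n l = n l⁻¹ = 1` for one linear character `l` with `l ^ 2 ≠ 1`, and all other `n χ` are `0`. -/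
def LinearPair (n : (G → ℂ) → ℤ) : Prop :=
  ∃ l : G →* ℂˣ, l * l ≠ 1 ∧ n (fun g => ((l g : ℂˣ) : ℂ)) = 1 ∧
    n (fun g => (((l g)⁻¹ : ℂˣ) : ℂ)) = 1 ∧
    ∀ χ ∈ Irr G, χ ≠ (fun g => ((l g : ℂˣ) : ℂ)) → χ ≠ (fun g => (((l g)⁻¹ : ℂˣ) : ℂ)) → n χ = 0

theorem central_cases (A : ArtinData G (1 / 2 : ℂ)) (hA : Reflects A)
    (hev : ∀ H : Subgroup G, ∃ m : ℕ,
      meromorphicOrderAt (A.Lin H 1) (1 / 2 : ℂ) = ((2 * m : ℕ) : WithTop ℤ))
    (h2 : meromorphicOrderAt (A.Lin ⊥ 1) (1 / 2 : ℂ) = ((2 : ℕ) : WithTop ℤ)) :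
    (QuadraticDouble A.ord ∨ SymplecticSimple A.ord ∨ ConjugateSimple A.ord) ∧
    OneSign A.ord 1 ∧
    (Subgroup.closure {t : G | t * t = 1} = ⊤ → QuadraticDouble A.ord) ∧
    (NoSingleInvolution G → Nonempty (LTData A) →
      QuadraticDouble A.ord ∨ SymplecticDegreeTwo A.ord ∨ LinearPair A.ord) := by
  classical
  have hs : (starRingEnd ℂ) (1 / 2 : ℂ) = 1 / 2 := by
    rw [map_div₀, map_one, map_ofNat]
  have h1 : (theta A.ord : G → ℂ) 1 = 2 := by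
    rw [A.theta_one h2]; simp
  obtain ⟨hshape, hinv⟩ := Pool.Agent.Q7.CV.central_double hs A hA hev h2
  refine ⟨?_, ?_, ?_, ?_⟩
  · rcases hshape with ⟨μ, e1, e2, e3, e4⟩ | ⟨χ₀, hχ₀, e1, e2, N, ⟨e3, e4⟩, e5⟩ |
      ⟨χ₀, hχ₀, e1, e2, e2', N, ⟨e3, e4⟩, e5⟩
    · left
      exact ⟨μ, e1, e2, e4⟩
    · right; left
      exact ⟨χ₀, hχ₀, e1, e2, N, e3, e4, e5⟩
    · right; right
      exact ⟨χ₀, hχ₀, e1, e2, e2', N, e3, e4, e5⟩
  · intro t _ ht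
    exact hinv t ht
  · intro hgen
    have hsc : ∀ χ ∈ Irr G, A.ord χ ≠ 0 → χ 1 = 1 ∧ (∀ g, χ g⁻¹ = χ g) ∧
        ∑ᶠ g, χ (g ^ 2) = (Nat.card G : ℂ) := fun χ hχ hne =>
      Pool.Agent.Q7.CV.scal_of_gen hgen (fun t ht => hinv t (fun χ _ _ => by rw [ht])) hχ hne
    have hG : (Nat.card G : ℂ) ≠ 0 := by exact_mod_cast Nat.card_pos.ne'
    rcases hshape with ⟨μ, e1, e2, e3, e4⟩ | ⟨χ₀, hχ₀, e1, e2, -⟩ | ⟨χ₀, hχ₀, e1, e2, -⟩
    · exact ⟨μ, e1, e2, e4⟩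
    · exfalso
      obtain ⟨-, -, h5⟩ := hsc χ₀ hχ₀ (by rw [e2]; norm_num)
      rw [e1.2] at h5
      apply hG
      linear_combination (-1 / 2 : ℂ) * h5
    · exfalso
      obtain ⟨-, h5, -⟩ := hsc χ₀ hχ₀ (by rw [e2]; norm_num)
      obtain ⟨g, hg⟩ := e1
      exact hg (h5 g)
  · intro hq hT
    have hpos : ∀ χ ∈ Irr G, 0 ≤ A.ord χ := by
      intro χ hχ
      have h3 : ∀ a ∈ res G, (theta A.ord : G → ℂ) a = (theta A.ord : G → ℂ) 1 := by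
        rcases dich A.isHeilbronn (Pool.Agent.W446.AS.theta_virt A.ord) (r := 2) le_rfl
          (by rw [h1]; simp) with h | ⟨-, K, hK, h4, -⟩
        · exact h
        · exact absurd h4 (hq (res G ⧸ K) (QuotientGroup.mk' K) (QuotientGroup.mk'_surjective K))
      have h4 := (artin_of_const A (r := 2) le_rfl h2 h3).2 hT χ hχ
      rw [← A.coe_ord hχ] at h4
      exact_mod_cast h4
    rcases hshape with ⟨μ, e1, e2, e3, e4⟩ | ⟨χ₀, hχ₀, e1, e2, N, ⟨e3, e4⟩, e5⟩ |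
      ⟨χ₀, hχ₀, e1, e2, e2', N, ⟨e3, e4⟩, e5⟩
    · left
      exact ⟨μ, e1, e2, e4⟩
    · right; left
      have hN : ∀ χ, χ ∉ N := by
        intro ψ hψ
        have h5 := hpos ψ (e4 ψ hψ).1
        rw [(e4 ψ hψ).2.2] at h5
        omega
      have h6 := Pool.Agent.Q7.CV.deg_sum A.ord h1 {χ₀} (by simpa using mem_irrF.mpr hχ₀)
        (fun χ hχ hne => e5 χ hχ (by simpa using hne) (hN χ))
      rw [Finset.sum_singleton, e2] at h6
      refine ⟨χ₀, hχ₀, e1, ?_, e2, fun χ hχ hne => e5 χ hχ hne (hN χ)⟩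
      simpa using h6
    · right; right
      have hN : ∀ χ, χ ∉ N := by
        intro ψ hψ
        have h5 := hpos ψ (e4 ψ hψ).1
        rw [(e4 ψ hψ).2.2] at h5
        omega
      have hne01 : χ₀ ≠ (fun g => χ₀ g⁻¹) := by
        intro h
        obtain ⟨g, hg⟩ := e1
        exact hg (congrFun h g).symm
      have h6 := Pool.Agent.Q7.CV.deg_sum A.ord h1 {χ₀, fun g => χ₀ g⁻¹} (by
          intro x hx
          rcases Finset.mem_insert.mp hx with h | h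
          · rw [h]; exact mem_irrF.mpr hχ₀
          · rw [Finset.mem_singleton.mp h]; exact mem_irrF.mpr (irr_inv hχ₀))
        (fun χ hχ hne => by
          simp only [Finset.mem_insert, Finset.mem_singleton, not_or] at hne
          exact e5 χ hχ hne.1 hne.2 (hN χ))
      rw [Finset.sum_pair hne01, e2, e2'] at h6
      simp only [inv_one] at h6
      have h7 : χ₀ 1 = 1 := by
        push_cast at h6
        linear_combination h6 / 2
      obtain ⟨l, hl⟩ := (Pool.Agent.W446.AS.irr_heilbronn hχ₀).deg_one h7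
      have hl1 : χ₀ = fun g => ((l g : ℂˣ) : ℂ) := funext hl
      have hl2 : (fun g => χ₀ g⁻¹) = fun g => (((l g)⁻¹ : ℂˣ) : ℂ) := by
        funext g
        rw [hl, map_inv]
      refine ⟨l, ?_, ?_, ?_, ?_⟩
      · intro h8
        apply hne01
        rw [hl2, hl1]
        funext g
        have h9 : l g * l g = 1 := by
          rw [← MonoidHom.mul_apply, h8, MonoidHom.one_apply]
        have h10 : (l g)⁻¹ = l g := inv_eq_of_mul_eq_one_left h9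
        rw [h10]
      · rw [← hl1]; exact e2
      · rw [← hl2]; exact e2'
      · intro χ hχ hne hne'
        rw [← hl1] at hne
        rw [← hl2] at hne'
        exact e5 χ hχ hne hne' (hN χ)

end

end Pool.Agent.Q7.RA
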